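import Pool.Agent.Lib.MP_89352f_al.NormForm

namespace Pool.Agent.Results.MP_89352f_al.PrimePower

open Pool.Agent.Lib.MP_89352f_al

/-- If `p` is prime, `p ^ e ≥ n` and `p ^ (e+1)` divides `m`, then `Q(n,m)` has an element of
infinite order. -/
theorem result (n : ℕ) (hn : 2 ≤ n) (p e m : ℕ) (hp : p.Prime) (he : n ≤ p ^ e)
    (hm : p ^ (e + 1) ∣ m) : ∃ g : Q n hn m, ¬ IsOfFinOrder g :=
  prime_power n hn p e m hp he hm

end Pool.Agent.Results.MP_89352f_al.PrimePower
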