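import Pool.Agent.Lib.MP_89352f_al.H60Main
import Pool.Agent.Lib.MP_89352f_al.Gauss
import Pool.Agent.Lib.MP_89352f_al.H92Fin

namespace Pool.Agent.Results.MP_89352f_al.RankThreeIff

open Pool.Agent.Lib.MP_89352f_al

/-- The row `n = 3`: for `m ≥ 1` the group `Q(3,m)` is infinite if and only if it has an element of
infinite order, if and only if `m ≥ 4`; in particular `Q(3,5)` is infinite. -/
theorem result (m : ℕ) (hm : 1 ≤ m) : List.TFAE [Infinite (Q 3 (by norm_num) m),
    ∃ g : Q 3 (by norm_num) m, ¬ IsOfFinOrder g, 4 ≤ m] := by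
  have h1 : 4 ≤ m → ∃ g : Q 3 (by norm_num) m, ¬ IsOfFinOrder g := fun h => by
    rcases h.eq_or_lt with rfl | h
    · exact Gauss.four
    · exact H60.five h
  have h2 : (∃ g : Q 3 (by norm_num) m, ¬ IsOfFinOrder g) → Infinite (Q 3 (by norm_num) m) :=
    fun ⟨g, hg⟩ => not_finite_iff_infinite.1 fun _ => hg (isOfFinOrder_of_finite g)
  have h3 : Infinite (Q 3 (by norm_num) m) → 4 ≤ m := fun h => by
    by_contra k
    refine not_finite_iff_infinite.2 h ?_
    interval_cases m
    · exact H92.finite_two (by norm_num)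
    · exact H92.finite_two (by norm_num)
    · exact H92.finite_three
  tfae_have 1 → 3 := h3
  tfae_have 3 → 2 := h1
  tfae_have 2 → 1 := h2
  tfae_finish

end Pool.Agent.Results.MP_89352f_al.RankThreeIff
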